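import Pool.Agent.KS6_80.WI.E

/-!
# MP_4bd310_co: Wiener index minus total eccentricity without the radius hypothesis

For a finite simple graph `G` of order `n` let `Good G` be the conclusion of the conjecture:
`W(G) - ε(G) ≤ ⌊n³/6 - 3n²/4 + n/3 + 1/4⌋`, with equality iff `G` is the path `P_n`.
The conjecture says that `Good G` holds for connected graphs of radius at least `4`
(such a graph has `n ≥ 8`).

We prove that `Good G` holds for *every* connected graph of order `n ≥ 9`, whatever its radius is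
(and for the graphs of order `8` and radius at least `4`), and we determine exactly for which orders
the radius hypothesis is superfluous: `Good G` holds for all connected graphs of order `n`
iff `n ≤ 2` or `n ≥ 9`.

For radius at least `4` this is `Pool.Agent.Results.MP_4bd310_co.PathMaximal` (an earlier
result); the new part is radius at most `3`: the distances from a centre give a breadth first tree,
`∑_v d(u,v) - 2 e(u)` is at most the sum of the tree distances from `u` to all vertices but two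
suitable ones, and the resulting bound in terms of the sizes of the levels and branches is smaller
than the value of the path.
-/

set_option autoImplicit false

open Finset

namespace Pool.Agent.Results.MP_4bd310_co.NoRadiusHypothesis

open Pool.Agent.R150.Wie Pool.Agent.KS6_80.WI

universe u

section defs
variable {V : Type*} [Fintype V]

/-- The eccentricity `max_v d(u, v)` of the vertex `u`. -/
noncomputable def ecc (G : SimpleGraph V) (u : V) : ℕ := univ.sup fun v => G.dist u v

/-- The radius `min_u e(u)`. -/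
noncomputable def radius (G : SimpleGraph V) : ℕ := ⨅ u, ecc G u

/-- The Wiener index `1/2 ∑_{u,v} d(u, v)`. -/
noncomputable def wiener (G : SimpleGraph V) : ℚ := 1 / 2 * ∑ u, ∑ v, (G.dist u v : ℚ)

/-- The total eccentricity `∑_u e(u)`. -/
noncomputable def totalEcc (G : SimpleGraph V) : ℕ := ∑ u, ecc G u

/-- The conjectured maximum `⌊n³/6 - 3n²/4 + n/3 + 1/4⌋`. -/
noncomputable def bound (n : ℕ) : ℤ :=
  ⌊(1 / 6 : ℚ) * (n : ℚ) ^ 3 - 3 / 4 * (n : ℚ) ^ 2 + 1 / 3 * n + 1 / 4⌋

/-- The conclusion of the conjecture for the graph `G`: the inequality, with equality iff `G` is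
a path. -/
def Good (G : SimpleGraph V) : Prop :=
  wiener G - totalEcc G ≤ bound (Fintype.card V) ∧
  (wiener G - totalEcc G = bound (Fintype.card V) ↔
    Nonempty (G ≃g SimpleGraph.pathGraph (Fintype.card V)))

lemma good_iff (G : SimpleGraph V) : Good G ↔
    f2 G.dist univ ≤ F2 (Fintype.card V) ∧
    (f2 G.dist univ = F2 (Fintype.card V) ↔
      Nonempty (G ≃g SimpleGraph.pathGraph (Fintype.card V))) := by
  have h1 : wiener G - totalEcc G = (f2 G.dist univ : ℚ) / 2 := PathMaximal.value_eq G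
  have h2 : ((bound (Fintype.card V) : ℤ) : ℚ) = (F2 (Fintype.card V) : ℚ) / 2 :=
    PathMaximal.floor_eq (Fintype.card V)
  unfold Good
  rw [h1, h2]
  have h3 : (f2 G.dist univ : ℚ) / 2 ≤ (F2 (Fintype.card V) : ℚ) / 2 ↔
      f2 G.dist univ ≤ F2 (Fintype.card V) := by
    rw [div_le_div_iff_of_pos_right (by norm_num)]
    exact_mod_cast Iff.rfl
  have h4 : (f2 G.dist univ : ℚ) / 2 = (F2 (Fintype.card V) : ℚ) / 2 ↔
      f2 G.dist univ = F2 (Fintype.card V) := by
    rw [div_left_inj' (by norm_num)]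
    exact_mod_cast Iff.rfl
  rw [h3, h4]

/-- The main part. -/
theorem good_of (G : SimpleGraph V) (hG : G.Connected)
    (h : 4 ≤ radius G ∨ 9 ≤ Fintype.card V) : Good G := by
  classical
  rw [good_iff]
  by_cases he : ∀ u, 4 ≤ ec G.dist u
  · obtain ⟨h1, h2⟩ := PathMaximal.main_ineq G hG he
    refine ⟨h1, fun h3 => ?_, ?_⟩
    · obtain ⟨hT, x, y, hxy⟩ := h2 h3
      exact PathMaximal.iso_of_univ hT hxy
    · rintro ⟨φ⟩
      exact PathMaximal.value_of_iso hG φ
  · have hn : 9 ≤ Fintype.card V := by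
      rcases h with h | h
      · exfalso
        apply he
        intro u
        have : radius G ≤ ecc G u := ciInf_le ⟨0, by rintro _ ⟨v, rfl⟩; exact Nat.zero_le _⟩ u
        exact h.trans this
      · exact h
    push Not at he
    obtain ⟨u, hu⟩ := he
    obtain ⟨c, -, hc⟩ := Finset.exists_min_image (univ : Finset V) (fun v => ec G.dist v)
      ⟨u, mem_univ u⟩
    have h1 := hc u (mem_univ u)
    have h2 := small (PathMaximal.distGM hG) hn c (by omega) fun v => hc v (mem_univ v)
    refine ⟨h2.le, fun h3 => absurd h3 h2.ne, ?_⟩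
    rintro ⟨φ⟩
    exact PathMaximal.value_of_iso hG φ

end defs

/-! ### Small orders -/

/-- Connected graphs with at most two vertices are paths. -/
lemma small_path {n : ℕ} (hn : n ≤ 2) (G : SimpleGraph (Fin n)) (hG : G.Connected) : Good G := by
  have hadj : ∀ a b : Fin n, a ≠ b → G.Adj a b := by
    intro a b hab
    obtain ⟨z, hz1, hz2⟩ := (PathMaximal.distGM hG).nbr a b hab
    have hza : z ≠ a := by
      rintro rfl
      rw [SimpleGraph.dist_self] at hz1
      omega
    have hzb : z = b := by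
      have h1 := a.2
      have h2 := b.2
      have h3 := z.2
      have h4 : (a : ℕ) ≠ b := fun e => hab (Fin.ext e)
      have h5 : (z : ℕ) ≠ a := fun e => hza (Fin.ext e)
      exact Fin.ext (by omega)
    rw [hzb] at hz1
    exact SimpleGraph.dist_eq_one_iff_adj.1 hz1
  have hiso : Nonempty (G ≃g SimpleGraph.pathGraph (Fintype.card (Fin n))) := by
    rw [Fintype.card_fin]
    refine ⟨⟨Equiv.refl _, ?_⟩⟩
    intro a b
    rw [SimpleGraph.pathGraph_adj]
    simp only [Equiv.refl_apply]
    have h1 := a.2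
    have h2 := b.2
    constructor
    · intro h
      apply hadj
      rintro rfl
      omega
    · intro h
      have h4 : (a : ℕ) ≠ b := fun e => h.ne (Fin.ext e)
      omega
  rw [good_iff]
  obtain ⟨φ⟩ := hiso
  have h := PathMaximal.value_of_iso hG φ
  exact ⟨h.le, fun _ => ⟨φ⟩, fun _ => h⟩

/-- A certificate that some connected graph of order `n` violates the inequality. -/
lemma bad_of {n : ℕ} (hn : 0 < n) (D : Fin n → Fin n → ℕ) (hD : gmB D)
    (hv : F2 n < f2 D univ) : ∃ G : SimpleGraph (Fin n), G.Connected ∧ ¬ Good G := by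
  have : Nonempty (Fin n) := ⟨⟨0, hn⟩⟩
  obtain ⟨h1, h2⟩ := dist_of_GM (gm_of hD) (ofD D) (ofD_adj (gm_of hD))
  refine ⟨ofD D, h1, fun hg => ?_⟩
  rw [good_iff, Fintype.card_fin] at hg
  have h3 : (ofD D).dist = D := by
    funext a b
    exact h2 a b
  rw [h3] at hg
  have := hg.1
  omega

lemma bad3 : ∃ G : SimpleGraph (Fin 3), G.Connected ∧ ¬ Good G :=
  bad_of (by norm_num) (tab [[0, 1, 1], [1, 0, 1], [1, 1, 0]]) (by decide +kernel)
    (by decide +kernel)

lemma bad4 : ∃ G : SimpleGraph (Fin 4), G.Connected ∧ ¬ Good G :=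
  bad_of (by norm_num) (tab [[0, 1, 1, 1], [1, 0, 2, 2], [1, 2, 0, 2], [1, 2, 2, 0]])
    (by decide +kernel) (by decide +kernel)

lemma bad5 : ∃ G : SimpleGraph (Fin 5), G.Connected ∧ ¬ Good G :=
  bad_of (by norm_num) (tab [[0, 1, 1, 1, 1], [1, 0, 2, 2, 2], [1, 2, 0, 2, 2], [1, 2, 2, 0, 2],
    [1, 2, 2, 2, 0]]) (by decide +kernel) (by decide +kernel)

lemma bad6 : ∃ G : SimpleGraph (Fin 6), G.Connected ∧ ¬ Good G :=
  bad_of (by norm_num) (tab [[0, 1, 1, 1, 1, 1], [1, 0, 2, 2, 2, 2], [1, 2, 0, 2, 2, 2],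
    [1, 2, 2, 0, 2, 2], [1, 2, 2, 2, 0, 2], [1, 2, 2, 2, 2, 0]])
    (by decide +kernel) (by decide +kernel)

lemma bad7 : ∃ G : SimpleGraph (Fin 7), G.Connected ∧ ¬ Good G :=
  bad_of (by norm_num) (tab [[0, 1, 1, 1, 2, 2, 2], [1, 0, 2, 2, 1, 3, 3], [1, 2, 0, 2, 3, 1, 3],
    [1, 2, 2, 0, 3, 3, 1], [2, 1, 3, 3, 0, 4, 4], [2, 3, 1, 3, 4, 0, 4], [2, 3, 3, 1, 4, 4, 0]])
    (by decide +kernel) (by decide +kernel)

/-- The distances of the spider with a further leaf: the centre `0`, its neighbours `1, 2, 3`,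
the leaves `4, 5` at `1`, `6` at `2` and `7` at `3`. -/
def D8 : Fin 8 → Fin 8 → ℕ := tab [[0, 1, 1, 1, 2, 2, 2, 2], [1, 0, 2, 2, 1, 1, 3, 3],
  [1, 2, 0, 2, 3, 3, 1, 3], [1, 2, 2, 0, 3, 3, 3, 1], [2, 1, 3, 3, 0, 2, 4, 4],
  [2, 1, 3, 3, 2, 0, 4, 4], [2, 3, 1, 3, 4, 4, 0, 4], [2, 3, 3, 1, 4, 4, 4, 0]]

lemma bad8 : ∃ G : SimpleGraph (Fin 8), G.Connected ∧ ¬ Good G := by
  have hD : gmB D8 := by decide +kernel
  have gm := gm_of hD
  obtain ⟨h1, h2⟩ := dist_of_GM gm (ofD D8) (ofD_adj gm)
  refine ⟨ofD D8, h1, fun hg => ?_⟩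
  rw [good_iff, Fintype.card_fin] at hg
  have h3 : (ofD D8).dist = D8 := by
    funext a b
    exact h2 a b
  rw [h3] at hg
  have h4 : f2 D8 univ = F2 8 := by decide +kernel
  obtain ⟨φ⟩ := hg.2.1 h4
  have a1 : (ofD D8).Adj 0 1 := by rw [ofD_adj gm]; decide +kernel
  have a2 : (ofD D8).Adj 0 2 := by rw [ofD_adj gm]; decide +kernel
  have a3 : (ofD D8).Adj 0 3 := by rw [ofD_adj gm]; decide +kernel
  rw [← φ.map_rel_iff, SimpleGraph.pathGraph_adj] at a1 a2 a3
  have e12 : (φ 1 : ℕ) ≠ φ 2 := fun e => absurd (φ.injective (Fin.ext e)) (by decide)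
  have e13 : (φ 1 : ℕ) ≠ φ 3 := fun e => absurd (φ.injective (Fin.ext e)) (by decide)
  have e23 : (φ 2 : ℕ) ≠ φ 3 := fun e => absurd (φ.injective (Fin.ext e)) (by decide)
  omega

/-- **The conjecture without the radius hypothesis.** For every connected graph `G` of order
`n` which has radius at least `4` *or* order `n ≥ 9`,
`W(G) - ε(G) ≤ ⌊n³/6 - 3n²/4 + n/3 + 1/4⌋` with equality iff `G` is a path. Moreover this
conclusion holds for all connected graphs of order `n` iff `n ≤ 2` or `n ≥ 9`. -/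
theorem result :
    (∀ {V : Type u} [Fintype V] (G : SimpleGraph V), G.Connected →
      4 ≤ radius G ∨ 9 ≤ Fintype.card V → Good G) ∧
    (∀ n : ℕ, (∀ G : SimpleGraph (Fin n), G.Connected → Good G) ↔ n ≤ 2 ∨ 9 ≤ n) := by
  refine ⟨fun G hG h => good_of G hG h, fun n => ⟨fun h => ?_, ?_⟩⟩
  · by_contra hcon
    push Not at hcon
    have hbad : ∃ G : SimpleGraph (Fin n), G.Connected ∧ ¬ Good G := by
      obtain ⟨h1, h2⟩ := hcon
      interval_cases n
      · exact bad3
      · exact bad4
      · exact bad5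
      · exact bad6
      · exact bad7
      · exact bad8
    obtain ⟨G, hG, hg⟩ := hbad
    exact hg (h G hG)
  · rintro (h | h) G hG
    · exact small_path h G hG
    · exact good_of G hG (Or.inr (by rwa [Fintype.card_fin]))

end Pool.Agent.Results.MP_4bd310_co.NoRadiusHypothesis
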